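import Pool.Agent.J4H75.NC.Stm

set_option autoImplicit false

namespace Pool.Agent.J4H75.NC

open Equiv

section
variable {G : Type} [Group G]

/-- the right coset K g -/
def Cs (K : Subgroup G) (g : G) : Set G := {x | x * g⁻¹ ∈ K}

theorem mem_Cs {K : Subgroup G} {g x : G} : x ∈ Cs K g ↔ x * g⁻¹ ∈ K := Iff.rfl

theorem Cs_self (K : Subgroup G) (g : G) : g ∈ Cs K g := by simp [Cs]

theorem Cs_symm {K : Subgroup G} {g x : G} (h : x ∈ Cs K g) : g ∈ Cs K x := by
  have := K.inv_mem h
  simpa [Cs] using this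

theorem Cs_trans {K : Subgroup G} {g x y : G} (h : x ∈ Cs K g) (h' : y ∈ Cs K x) : y ∈ Cs K g := by
  have := K.mul_mem h' h
  have e : y * x⁻¹ * (x * g⁻¹) = y * g⁻¹ := by group
  rw [e] at this
  exact this

theorem Cs_mul {K : Subgroup G} {u b x : G} : x ∈ Cs K (u * b) ↔ x * b⁻¹ ∈ Cs K u := by
  simp [Cs, mul_assoc]

theorem Cs_card [Finite G] (K : Subgroup G) (g : G) : (Cs K g).ncard = Nat.card K := by
  have : Cs K g = (fun x => x * g) '' (K : Set G) := by
    ext x
    constructor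
    · intro h
      exact ⟨x * g⁻¹, h, by simp⟩
    · rintro ⟨k, hk, rfl⟩
      simpa [Cs] using hk
  rw [this, Set.ncard_image_of_injective _ (mul_left_injective g)]
  rfl

structure State (A₀ A : Set G) (K L : Subgroup G) (B : Finset G) (S : Set G) (f : Perm G)
    (Φ : G → Perm G) : Prop where
  one : (1 : G) ∈ S
  cl : ∀ k ∈ K, ∀ g ∈ S, k * g ∈ S
  sub : S ⊆ (L : Set G)
  cyc : f.IsCycleOn S
  out : ∀ x ∉ S, f x = x
  adj : ∀ x ∈ S, x⁻¹ * f x ∈ A
  pc : ∀ g ∈ S, (Φ g).IsCycleOn (Cs K g)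
  po : ∀ g ∈ S, ∀ x ∉ Cs K g, Φ g x = x
  pa : ∀ g ∈ S, ∀ x ∈ Cs K g, x⁻¹ * Φ g x ∈ A₀
  pk : ∀ g ∈ S, ∀ x ∈ Cs K g, Φ x = Φ g
  fr : ∀ g ∈ S, {b | b ∈ B ∧ g * b ∉ S}.ncard ≤ {x | x ∈ Cs K g ∧ f x = Φ g x}.ncard

omit [Group G] in
theorem cyc_congr [Finite G] {f g : Perm G} {s : Set G} (hf : f.IsCycleOn s)
    (h : ∀ x ∈ s, g x = f x) : g.IsCycleOn s := by
  refine ⟨hf.1.congr (fun x hx => (h x hx).symm), fun x hx y hy => ?_⟩
  obtain ⟨n, hn⟩ := hf.exists_pow_eq' (Set.toFinite s) hx hy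
  refine ⟨n, ?_⟩
  have key : ∀ m : ℕ, (g ^ m) x = (f ^ m) x ∧ (f ^ m) x ∈ s := by
    intro m
    induction m with
    | zero => exact ⟨rfl, hx⟩
    | succ m ih =>
      have e1 : (f ^ (m + 1)) x = f ((f ^ m) x) := by rw [pow_succ']; rfl
      have e2 : (g ^ (m + 1)) x = g ((g ^ m) x) := by rw [pow_succ']; rfl
      refine ⟨?_, ?_⟩
      · rw [e1, e2, ih.1, h _ ih.2]
      · rw [e1]; exact hf.1.mapsTo ih.2
  rw [zpow_natCast, (key n).1, hn]

theorem cs_sub {A₀ A : Set G} {K L : Subgroup G} {B : Finset G} {S : Set G} {f : Perm G}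
    {Φ : G → Perm G} (h : State A₀ A K L B S f Φ) {g x : G} (hg : g ∈ S) (hx : x ∈ Cs K g) :
    x ∈ S := by
  have := h.cl _ hx g hg
  simpa using this

theorem attach [Finite G] (M1 : S_M1) {A₀ A : Set G} {K L : Subgroup G} {B : Finset G} {S : Set G}
    {f : Perm G} {Φ : G → Perm G}
    (i0 : ∀ a ∈ A₀, a⁻¹ ∈ A₀) (c0 : ∀ a ∈ A₀, ∀ g : G, g * a * g⁻¹ ∈ A₀) (h0 : A₀ ⊆ A)
    (iA : ∀ a ∈ A, a⁻¹ ∈ A) (hB : ∀ b ∈ B, b ∈ A) (hKL : K ≤ L) (hBL : ∀ b ∈ B, b ∈ L)
    (hc : B.card + 1 ≤ Nat.card K ∨ ((∀ b ∈ B, b * b = 1) ∧ B.card ≤ Nat.card K))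
    (h : State A₀ A K L B S f Φ) {u b : G} (hu : u ∈ S) (hb : b ∈ B) (hub : u * b ∉ S)
    (hfu : f u = Φ u u) :
    ∃ f' Φ', State A₀ A K L B (S ∪ Cs K (u * b)) f' Φ' := by
  classical
  have hYS : ∀ x ∈ Cs K (u * b), x ∉ S := by
    intro x hx hxS
    exact hub (cs_sub h hxS (Cs_symm hx))
  set e : Perm G := (Equiv.mulRight b) * (Φ u)⁻¹ * (Equiv.mulRight b)⁻¹ with he
  have e_app : ∀ x, e x = (Φ u)⁻¹ (x * b⁻¹) * b := by
    intro x
    simp [he]
  have eY : e.IsCycleOn (Cs K (u * b)) := by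
    have h1 := ((h.pc u hu).inv).conj (g := Equiv.mulRight b)
    have h2 : ((Equiv.mulRight b : Perm G) '' (Cs K u)) = Cs K (u * b) := by
      ext x
      constructor
      · rintro ⟨z, hz, rfl⟩
        rw [Cs_mul]
        simpa using hz
      · intro hx
        exact ⟨x * b⁻¹, Cs_mul.1 hx, by simp⟩
    rw [h2] at h1
    exact h1
  have eO : ∀ x ∉ Cs K (u * b), e x = x := by
    intro x hx
    rw [e_app]
    have h1 : x * b⁻¹ ∉ Cs K u := fun hh => hx (Cs_mul.2 hh)
    have h2 := h.po u hu _ h1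
    have h3 : (Φ u)⁻¹ (x * b⁻¹) = x * b⁻¹ := by
      rw [Perm.inv_eq_iff_eq]
      exact h2.symm
    rw [h3]
    simp
  have eA : ∀ x ∈ Cs K (u * b), x⁻¹ * e x ∈ A₀ := by
    intro x hx
    rw [e_app]
    have h1 := Cs_mul.1 hx
    have h2 : (Φ u)⁻¹ (x * b⁻¹) ∈ Cs K u := (h.pc u hu).inv.1.mapsTo h1
    have h3 := h.pa u hu _ h2
    have h3' : (Φ u) ((Φ u)⁻¹ (x * b⁻¹)) = x * b⁻¹ := by simp
    rw [h3'] at h3
    have h4 := c0 _ (i0 _ h3) b⁻¹
    have h5 : b⁻¹ * (((Φ u)⁻¹ (x * b⁻¹))⁻¹ * (x * b⁻¹))⁻¹ * b⁻¹⁻¹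
        = x⁻¹ * ((Φ u)⁻¹ (x * b⁻¹) * b) := by group
    rw [h5] at h4
    exact h4
  have hw : f u ∈ S := h.cyc.1.mapsTo hu
  set w := f u with hwdef
  set f₁ : Perm G := f * e with hf1
  have f1S : ∀ x ∈ S, f₁ x = f x := by
    intro x hx
    have : e x = x := eO x (fun hh => hYS x hh hx)
    simp [hf1, this]
  have f1Y : ∀ x ∈ Cs K (u * b), f₁ x = e x := by
    intro x hx
    have h1 : e x ∈ Cs K (u * b) := eY.1.mapsTo hx
    have h2 := h.out _ (hYS _ h1)
    simp [hf1, h2]
  have c1 : f₁.IsCycleOn S := cyc_congr h.cyc f1S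
  have c2 : f₁.IsCycleOn (Cs K (u * b)) := cyc_congr eY f1Y
  have hdis : Disjoint S (Cs K (u * b)) := by
    rw [Set.disjoint_left]
    intro x hx hx'
    exact hYS x hx' hx
  have hcyc := M1 G f₁ S (Cs K (u * b)) w (u * b) c1 c2 hdis hw (Cs_self K _)
  set f' : Perm G := swap w (u * b) * f₁ with hf'
  set Φ' : G → Perm G := fun x => if x ∈ Cs K (u * b) then e else Φ x with hΦ'
  have wne : w ≠ u * b := fun hh => hub (hh ▸ hw)
  -- values of f'
  have fu : f' u = u * b := by
    have : f₁ u = w := f1S u hu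
    simp [hf', this]
  have fS : ∀ x ∈ S, x ≠ u → f' x = f x := by
    intro x hx hxu
    have h1 : f₁ x = f x := f1S x hx
    have h2 : f x ≠ w := fun hh => hxu (f.injective hh)
    have h3 : f x ≠ u * b := fun hh => hub (hh ▸ h.cyc.1.mapsTo hx)
    simp only [hf', Perm.mul_apply, h1]
    exact swap_apply_of_ne_of_ne h2 h3
  have ewb : e (w * b) = u * b := by
    rw [e_app]
    have h1 : w * b * b⁻¹ = w := by group
    rw [h1]
    congr 1
    rw [Perm.inv_eq_iff_eq]
    exact hfu
  have wbY : w * b ∈ Cs K (u * b) := by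
    rw [Cs_mul]
    have h1 : w * b * b⁻¹ = w := by group
    rw [h1, hfu]
    exact (h.pc u hu).1.mapsTo (Cs_self K u)
  have fwb : f' (w * b) = w := by
    simp only [hf', Perm.mul_apply, f1Y _ wbY, ewb]
    exact swap_apply_right _ _
  have fY : ∀ x ∈ Cs K (u * b), x ≠ w * b → f' x = e x := by
    intro x hx hxw
    have h1 : f₁ x = e x := f1Y x hx
    have h2 : e x ≠ u * b := by
      intro hh
      rw [← ewb] at hh
      exact hxw (e.injective hh)
    have h3 : e x ≠ w := fun hh => hYS _ (eY.1.mapsTo hx) (hh ▸ hw)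
    simp only [hf', Perm.mul_apply, h1]
    exact swap_apply_of_ne_of_ne h3 h2
  have ΦS : ∀ x ∈ S, Φ' x = Φ x := by
    intro x hx
    have : x ∉ Cs K (u * b) := fun hh => hYS x hh hx
    simp [hΦ', this]
  have ΦY : ∀ x ∈ Cs K (u * b), Φ' x = e := by
    intro x hx
    simp [hΦ', hx]
  refine ⟨f', Φ', ?_⟩
  refine
    { one := Or.inl h.one
      cl := ?_
      sub := ?_
      cyc := hcyc
      out := ?_
      adj := ?_
      pc := ?_
      po := ?_
      pa := ?_
      pk := ?_
      fr := ?_ }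
  · rintro k hk g (hg | hg)
    · exact Or.inl (h.cl k hk g hg)
    · right
      have : k * g ∈ Cs K g := by simpa [Cs] using hk
      exact Cs_trans hg this
  · rintro x (hx | hx)
    · exact h.sub hx
    · have h1 : u * b ∈ L := L.mul_mem (h.sub hu) (hBL b hb)
      have h2 : x * (u * b)⁻¹ ∈ L := hKL hx
      have h3 := L.mul_mem h2 h1
      have h4 : x * (u * b)⁻¹ * (u * b) = x := by group
      rw [h4] at h3
      exact h3
  · intro x hx
    have h1 : x ∉ S := fun hh => hx (Or.inl hh)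
    have h2 : x ∉ Cs K (u * b) := fun hh => hx (Or.inr hh)
    have h3 : f₁ x = x := by
      simp only [hf1, Perm.mul_apply, eO x h2]
      exact h.out x h1
    have h4 : x ≠ w := fun hh => h1 (hh ▸ hw)
    have h5 : x ≠ u * b := fun hh => h2 (hh ▸ Cs_self K _)
    simp only [hf', Perm.mul_apply, h3]
    exact swap_apply_of_ne_of_ne h4 h5
  · rintro x (hx | hx)
    · by_cases hxu : x = u
      · subst hxu
        rw [fu]
        simpa using hB b hb
      · rw [fS x hx hxu]
        exact h.adj x hx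
    · by_cases hxw : x = w * b
      · subst hxw
        rw [fwb]
        have : (w * b)⁻¹ * w = b⁻¹ := by group
        rw [this]
        exact iA b (hB b hb)
      · rw [fY x hx hxw]
        exact h0 (eA x hx)
  · rintro g (hg | hg)
    · rw [ΦS g hg]
      exact h.pc g hg
    · rw [ΦY g hg]
      have : Cs K g = Cs K (u * b) := by
        ext x
        exact ⟨fun hx => Cs_trans hg hx, fun hx => Cs_trans (Cs_symm hg) hx⟩
      rw [this]
      exact eY
  · rintro g (hg | hg) x hx
    · rw [ΦS g hg]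
      exact h.po g hg x hx
    · rw [ΦY g hg]
      exact eO x (fun hh => hx (Cs_trans (Cs_symm hg) hh))
  · rintro g (hg | hg) x hx
    · rw [ΦS g hg]
      exact h.pa g hg x hx
    · rw [ΦY g hg]
      exact eA x (Cs_trans hg hx)
  · rintro g (hg | hg) x hx
    · rw [ΦS g hg, ΦS x (cs_sub h hg hx)]
      exact h.pk g hg x hx
    · rw [ΦY g hg, ΦY x (Cs_trans hg hx)]
  · rintro g (hg | hg)
    · have mono : {b' | b' ∈ B ∧ g * b' ∉ S ∪ Cs K (u * b)} ⊆ {b' | b' ∈ B ∧ g * b' ∉ S} := by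
        rintro b' ⟨h1, h2⟩
        exact ⟨h1, fun hh => h2 (Or.inl hh)⟩
      rw [ΦS g hg]
      by_cases hgu : g ∈ Cs K u
      · have hsub : {x | x ∈ Cs K g ∧ f x = Φ g x} \ {u} ⊆ {x | x ∈ Cs K g ∧ f' x = Φ g x} := by
          rintro x ⟨⟨h1, h2⟩, h3⟩
          refine ⟨h1, ?_⟩
          rw [fS x (cs_sub h hg h1) h3]
          exact h2
        have humem : u ∈ {x | x ∈ Cs K g ∧ f x = Φ g x} := by
          refine ⟨Cs_symm hgu, ?_⟩
          rw [h.pk u hu g hgu]
          exact hfu
        have h1 := Set.ncard_le_ncard hsub (Set.toFinite _)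
        have h2 := Set.ncard_sdiff_singleton_add_one humem (Set.toFinite _)
        have hgb : g * b ∉ S := by
          intro hh
          apply hub
          refine cs_sub h hh ?_
          rw [Cs_mul]
          have : u * b * b⁻¹ = u := by group
          rw [Cs, Set.mem_ofPred_eq]
          have h5 := Cs_symm hgu
          rw [mem_Cs] at h5
          have : u * b * b⁻¹ * g⁻¹ = u * g⁻¹ := by group
          rw [this]
          exact h5
        have hsub2 : {b' | b' ∈ B ∧ g * b' ∉ S ∪ Cs K (u * b)} ⊆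
            {b' | b' ∈ B ∧ g * b' ∉ S} \ {b} := by
          rintro b' ⟨h1, h2⟩
          refine ⟨⟨h1, fun hh => h2 (Or.inl hh)⟩, ?_⟩
          rintro hbb
          rw [Set.mem_singleton_iff] at hbb
          subst hbb
          apply h2
          right
          rw [Cs_mul]
          have : g * b' * b'⁻¹ = g := by group
          rw [this]
          exact hgu
        have h3 := Set.ncard_le_ncard hsub2 (Set.toFinite _)
        have hbm : b ∈ {b' | b' ∈ B ∧ g * b' ∉ S} := ⟨hb, hgb⟩
        have h4 := Set.ncard_sdiff_singleton_add_one hbm (Set.toFinite _)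
        have h5 := h.fr g hg
        omega
      · have hsub : {x | x ∈ Cs K g ∧ f x = Φ g x} ⊆ {x | x ∈ Cs K g ∧ f' x = Φ g x} := by
          rintro x ⟨h1, h2⟩
          refine ⟨h1, ?_⟩
          rw [fS x (cs_sub h hg h1) ?_]
          · exact h2
          · rintro rfl
            exact hgu (Cs_symm h1)
        exact (Set.ncard_le_ncard mono (Set.toFinite _)).trans
          ((h.fr g hg).trans (Set.ncard_le_ncard hsub (Set.toFinite _)))
    · rw [ΦY g hg]
      have hcs : Cs K g = Cs K (u * b) := by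
        ext x
        exact ⟨fun hx => Cs_trans hg hx, fun hx => Cs_trans (Cs_symm hg) hx⟩
      have hsub : Cs K g \ {w * b} ⊆ {x | x ∈ Cs K g ∧ f' x = e x} := by
        rintro x ⟨h1, h2⟩
        exact ⟨h1, fY x (Cs_trans hg h1) h2⟩
      have h1 := Set.ncard_le_ncard hsub (Set.toFinite _)
      have hm : w * b ∈ Cs K g := by rw [hcs]; exact wbY
      have h2 := Set.ncard_sdiff_singleton_add_one hm (Set.toFinite _)
      rw [Cs_card] at h2
      rcases hc with hc | ⟨hinv, hc⟩
      · have h3 : {b' | b' ∈ B ∧ g * b' ∉ S ∪ Cs K (u * b)} ⊆ (B : Set G) := by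
          rintro b' ⟨h1, h2⟩
          exact h1
        have h4 := Set.ncard_le_ncard h3 (Set.toFinite _)
        rw [Set.ncard_coe_finset] at h4
        omega
      · have h3 : {b' | b' ∈ B ∧ g * b' ∉ S ∪ Cs K (u * b)} ⊆ (B : Set G) \ {b} := by
          rintro b' ⟨hb1, h2⟩
          refine ⟨hb1, ?_⟩
          rintro hbb
          rw [Set.mem_singleton_iff] at hbb
          subst hbb
          apply h2
          left
          have h5 : g * b' ∈ Cs K u := by
            have h6 := Cs_mul.1 hg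
            have h7 : b'⁻¹ = b' := by
              rw [inv_eq_iff_mul_eq_one]
              exact hinv b' hb1
            rw [h7] at h6
            exact h6
          exact cs_sub h hu h5
        have h4 := Set.ncard_le_ncard h3 (Set.toFinite _)
        have hbm : b ∈ (B : Set G) := hb
        have h6 := Set.ncard_sdiff_singleton_add_one hbm (Set.toFinite _)
        rw [Set.ncard_coe_finset] at h6
        omega

end

theorem t_STEP (M1 : S_M1) : S_STEP := by
  intro G _ _ A₀ A K L B c i0 c0 h0 iA hB cK cO cA hKL hBL hL hc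
  classical
  have start : State A₀ A K L B (K : Set G) c (fun _ => c) := by
    have hcs : ∀ g ∈ (K : Set G), Cs K g = (K : Set G) := by
      intro g hg
      ext x
      constructor
      · intro hx
        have := K.mul_mem hx hg
        simpa using this
      · intro hx
        exact K.mul_mem hx (K.inv_mem hg)
    refine
      { one := K.one_mem
        cl := fun k hk g hg => K.mul_mem hk hg
        sub := hKL
        cyc := cK
        out := cO
        adj := fun x hx => h0 (cA x hx)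
        pc := ?_
        po := ?_
        pa := ?_
        pk := fun _ _ _ _ => rfl
        fr := ?_ }
    · intro g hg
      rw [hcs g hg]
      exact cK
    · intro g hg x hx
      rw [hcs g hg] at hx
      exact cO x hx
    · intro g hg x hx
      rw [hcs g hg] at hx
      exact cA x hx
    · intro g hg
      have h1 : {x | x ∈ Cs K g ∧ c x = c x} = Cs K g := by
        ext x
        simp
      rw [h1, Cs_card]
      have h3 : {b' | b' ∈ B ∧ g * b' ∉ (K : Set G)} ⊆ (B : Set G) := by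
        rintro b' ⟨h1, h2⟩
        exact h1
      have h4 := Set.ncard_le_ncard h3 (Set.toFinite _)
      rw [Set.ncard_coe_finset] at h4
      rcases hc with hc | ⟨_, hc⟩ <;> omega
  have key : ∀ n : ℕ, ∃ S f Φ, State A₀ A K L B S f Φ ∧ (S = (L : Set G) ∨ n ≤ S.ncard) := by
    intro n
    induction n with
    | zero => exact ⟨_, _, _, start, Or.inr (Nat.zero_le _)⟩
    | succ n ih =>
      obtain ⟨S, f, Φ, hS, hn⟩ := ih
      by_cases hSL : S = (L : Set G)
      · exact ⟨S, f, Φ, hS, Or.inl hSL⟩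
      rcases hn with hn | hn
      · exact absurd hn hSL
      have hex : ∃ g ∈ S, ∃ b ∈ B, g * b ∉ S := by
        by_contra hcon
        push Not at hcon
        exact hSL (Set.Subset.antisymm hS.sub (hL S hS.one hS.cl hcon))
      obtain ⟨g, hg, b, hb, hgb⟩ := hex
      have h1 : 0 < {b' | b' ∈ B ∧ g * b' ∉ S}.ncard := by
        rw [Set.ncard_pos]
        exact ⟨b, hb, hgb⟩
      have h2 := lt_of_lt_of_le h1 (hS.fr g hg)
      rw [Set.ncard_pos] at h2
      obtain ⟨u, hu1, hu2⟩ := h2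
      have huS := cs_sub hS hg hu1
      have hub : u * b ∉ S := by
        intro hh
        apply hgb
        refine cs_sub hS hh ?_
        rw [Cs_mul]
        have : g * b * b⁻¹ = g := by group
        rw [this]
        exact Cs_symm hu1
      have hfu : f u = Φ u u := by
        rw [hu2, hS.pk g hg u hu1]
      obtain ⟨f', Φ', hS'⟩ := attach M1 i0 c0 h0 iA hB hKL hBL hc hS huS hb hub hfu
      refine ⟨_, f', Φ', hS', Or.inr ?_⟩
      have hlt : S.ncard < (S ∪ Cs K (u * b)).ncard := by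
        apply Set.ncard_lt_ncard _ (Set.toFinite _)
        refine ⟨Set.subset_union_left, fun hh => hub (hh (Or.inr (Cs_self K _)))⟩
      omega
  obtain ⟨S, f, Φ, hS, hn⟩ := key (Nat.card G + 1)
  have hSL : S = (L : Set G) := by
    rcases hn with hn | hn
    · exact hn
    · have : S.ncard ≤ Nat.card G := Set.ncard_le_card S
      omega
  subst hSL
  exact ⟨f, hS.cyc, hS.out, hS.adj⟩

end Pool.Agent.J4H75.NC
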