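import Mathlib

set_option autoImplicit false

namespace Pool.Agent.J4H75.NC

open Equiv

/-- (M1) a transposition of points of two cycles merges them -/
def S_M1 : Prop :=
  ∀ (α : Type) [Finite α] [DecidableEq α] (f : Perm α) (s t : Set α) (u v : α),
    f.IsCycleOn s → f.IsCycleOn t → Disjoint s t → u ∈ s → v ∈ t →
    (swap u v * f).IsCycleOn (s ∪ t)

/-- (CYC) the cyclic base case -/
def S_CYC : Prop :=
  ∀ (G : Type) [Group G] [Finite G] (b : G),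
    ∃ c : Perm G, c.IsCycleOn (Subgroup.zpowers b : Set G) ∧
      (∀ x ∉ Subgroup.zpowers b, c x = x) ∧ ∀ x ∈ Subgroup.zpowers b, c x = x * b

/-- (CHN) irredundant sets over a subgroup `N` generate big subgroups -/
def S_CHN : Prop :=
  ∀ (G : Type) [Group G] [Finite G] (N : Subgroup G) (X : Finset G),
    (∀ x ∈ X, x ∉ Subgroup.closure ((N : Set G) ∪ ((X : Set G) \ {x}))) →
    Nat.card N * 2 ^ X.card ≤ Nat.card (Subgroup.closure ((N : Set G) ∪ (X : Set G)))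

/-- (LST) a permutation with one cycle gives the list -/
def S_LST : Prop :=
  ∀ (G : Type) [Group G] [Finite G] (A : Set G) (f : Perm G),
    f.IsCycleOn (Set.univ : Set G) → (∀ x, x⁻¹ * f x ∈ A) →
    ∃ l : List G, l.length = Nat.card G ∧ (∀ a ∈ l, a ∈ A) ∧ l.prod = 1 ∧
      ((List.range (Nat.card G)).map (fun k => (l.take (k + 1)).prod)).Nodup

/-- (STEP) the coset step -/
def S_STEP : Prop :=
  ∀ (G : Type) [Group G] [Finite G] (A₀ A : Set G) (K L : Subgroup G) (B : Finset G) (c : Perm G),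
    (∀ a ∈ A₀, a⁻¹ ∈ A₀) → (∀ a ∈ A₀, ∀ g : G, g * a * g⁻¹ ∈ A₀) → A₀ ⊆ A →
    (∀ a ∈ A, a⁻¹ ∈ A) → (∀ b ∈ B, b ∈ A) →
    c.IsCycleOn (K : Set G) → (∀ x ∉ K, c x = x) → (∀ x ∈ K, x⁻¹ * c x ∈ A₀) →
    K ≤ L → (∀ b ∈ B, b ∈ L) →
    (∀ S : Set G, (1 : G) ∈ S → (∀ k ∈ K, ∀ g ∈ S, k * g ∈ S) → (∀ g ∈ S, ∀ b ∈ B, g * b ∈ S) →
      (L : Set G) ⊆ S) →
    (B.card + 1 ≤ Nat.card K ∨ ((∀ b ∈ B, b * b = 1) ∧ B.card ≤ Nat.card K)) →
    ∃ f : Perm G, f.IsCycleOn (L : Set G) ∧ (∀ x ∉ L, f x = x) ∧ ∀ x ∈ L, x⁻¹ * f x ∈ A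

end Pool.Agent.J4H75.NC
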